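import Pool.Agent.Run7.h699.Fan.Main

/-! # Every forcing preserves II's winning strategies in the strong countable fan tightness game -/

namespace Pool.Agent.Results.MP_07c8c2_lc.PreservedByEveryForcing

open Pool.Agent.Helper669.Forcing
open Pool.Agent.Run7.h699.Fan

universe u v

/-- Let `P` be any notion of forcing, `X` a topological space and `x` a point of `X` such that II
has a winning strategy in the strong countable fan tightness game at `x`. Then every condition
forces that II has a winning strategy in the strong countable fan tightness game at `x` on `X` with
the topology that has the ground model topology as a base. -/
theorem result (P : Type u) [Preorder P] (X : Type v) [TopologicalSpace X] (x : X)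
    (h : IIWins x) : ∀ p : P, p ∈ fIIWins (P := P) x :=
  preserved h

end Pool.Agent.Results.MP_07c8c2_lc.PreservedByEveryForcing
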